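import Pool.Agent.Q224.CG.Time

/-!
# MP_ba7db8, Q1: the chromatic number of Cayley graphs of the powers of a fixed group

For every finite group `G` with at least two elements, deciding `χ(X) ≤ k` is NP-hard when the
input graph is restricted to the Cayley graphs `X(G ^ n, C)`.
-/

set_option autoImplicit false

namespace Pool.Agent.Results.MP_ba7db8_lc.CayleyPowers

open Pool.Agent.NPC Pool.Agent.H633R2 Q224.CG

/-- The graph with adjacency matrix `M` is (isomorphic to) a Cayley graph `X(G ^ n, C)` for some
`n ≥ 1` and some admissible connection set `C` of `G ^ n`. -/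
def InClass (G : Type) [Group G] (M : List (List Bool)) : Prop :=
  ∃ n : ℕ, 1 ≤ n ∧ ∃ (C : Set (Fin n → G)) (hC : Admissible C),
    Nonempty (graphOf M ≃g cayley C hC)

/-- For every finite group `G` with at least two elements, every language in `NP` reduces in
polynomial time to the question `χ(X) ≤ k` in such a way that all produced graphs `X` are Cayley
graphs of powers of `G`. In particular the decision problem for the class is NP-hard. -/
theorem result (G : Type) [Group G] [Finite G] [Nontrivial G] :
    (∀ L : Set (List Bool), InNP L → ∃ f : List Bool → List (List Bool) × ℕ,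
      PolyTime (fun x => bits (f x)) ∧ (∀ x, InClass G (f x).1) ∧
      ∀ x, x ∈ L ↔ (graphOf (f x).1).chromaticNumber ≤ (f x).2) ∧
    NPHardP (fun x : List (List Bool) × ℕ =>
      InClass G x.1 ∧ (graphOf x.1).chromaticNumber ≤ x.2) := by
  have key : ∀ L : Set (List Bool), InNP L → ∃ f : List Bool → List (List Bool) × ℕ,
      PolyTime (fun x => bits (f x)) ∧ (∀ x, InClass G (f x).1) ∧
      ∀ x, x ∈ L ↔ (graphOf (f x).1).chromaticNumber ≤ (f x).2 := by
    intro L hL
    obtain ⟨f, hf, h1, h2⟩ := Pool.Agent.NPC.Q224CG.hard G L hL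
    refine ⟨f, PC.toPolyTime hf, h1, fun x => ?_⟩
    rw [h2 x, SimpleGraph.chromaticNumber_le_iff_colorable]
  refine ⟨key, fun L hL => ?_⟩
  obtain ⟨f, hf, h1, h2⟩ := key L hL
  refine ⟨fun x => bits (f x), hf, fun x => ?_⟩
  rw [h2 x]
  constructor
  · intro h
    exact ⟨f x, rfl, h1 x, h⟩
  · rintro ⟨a, ha, -, h⟩
    rw [bits_injective ha] at h
    exact h

end Pool.Agent.Results.MP_ba7db8_lc.CayleyPowers
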